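import Pool.Agent.H30.Oll

set_option autoImplicit false

namespace Pool.Agent.Results.MP_d3a611_gt.Heis

open Pool.Agent.H30.Oll

/-- The discrete Heisenberg group of upper unitriangular integer matrices. -/
def H : Subgroup (Matrix.SpecialLinearGroup (Fin 3) ℤ) where
  carrier := {M | M.1 0 0 = 1 ∧ M.1 1 1 = 1 ∧ M.1 2 2 = 1 ∧ M.1 1 0 = 0 ∧ M.1 2 0 = 0 ∧ M.1 2 1 = 0}
  mul_mem' := fun ⟨a, b, c, d, e, f⟩ ⟨a', b', c', d', e', f'⟩ => by
    simp [Matrix.mul_apply, Fin.sum_univ_three, *]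
  one_mem' := by simp
  inv_mem' := fun ⟨a, b, c, d, e, f⟩ => by
    simp [Matrix.SpecialLinearGroup.coe_inv, Matrix.adjugate_fin_three, *]

/-- No Cayley graph of the discrete Heisenberg group has non-negative Ollivier-Ricci curvature. -/
theorem result (S : Finset H) (h1 : 1 ∉ S) (hs : ∀ s ∈ S, s⁻¹ ∈ S)
    (hg : Subgroup.closure (S : Set H) = ⊤) :
    ∃ x y : H, (SimpleGraph.mulCayley (S : Set H)).Adj x y ∧ kappa S x y < 0 := by
  by_contra hn
  push Not at hn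
  have := core h1 hs hg (fun s h => by simpa using hn _ _ (adj h1 1 h))
    (fun g h => ((g.1.1 0 1 : ℝ) * h.1.1 1 2 - g.1.1 1 2 * h.1.1 0 1) / 2)
    (fun g => (g.1.1 0 2 : ℝ) - g.1.1 0 1 * g.1.1 1 2 / 2)
    (fun ⟨g, a, b, c, d, e, f⟩ ⟨h, a', b', c', d', e', f'⟩ k => by
      simp [Matrix.mul_apply, Fin.sum_univ_three, *]
      ring) (fun g h => by ring)
    (fun ⟨g, a, b, c, d, e, f⟩ ⟨h, a', b', c', d', e', f'⟩ => by
      simp [Matrix.mul_apply, Fin.sum_univ_three, *]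
      ring)
    ⟨⟨!![1, 1, 0; 0, 1, 0; 0, 0, 1], by simp [Matrix.det_fin_three]⟩, by simp [H]⟩
    ⟨⟨!![1, 0, 0; 0, 1, 1; 0, 0, 1], by simp [Matrix.det_fin_three]⟩, by simp [H]⟩
  simp at this

end Pool.Agent.Results.MP_d3a611_gt.Heis
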